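import Pool.Agent.N287.WF.Stm

/-! Discrete subgroups of the plane: a basis (part A1 of the project WF). -/

open Set

namespace Pool.Agent.N596.WF

open Pool.Agent.N287.WF

/-- bounded parts of a discrete subgroup are finite -/
theorem finite_part {Λ : AddSubgroup (ℝ × ℝ)} {ε : ℝ} (hε : 0 < ε)
    (hd : ∀ γ ∈ Λ, ‖γ‖ < ε → γ = 0) (R : ℝ) : {γ : ℝ × ℝ | γ ∈ Λ ∧ ‖γ‖ ≤ R}.Finite := by
  classical
  set F : ℝ × ℝ → ℤ × ℤ := fun γ => (⌊γ.1 / ε⌋, ⌊γ.2 / ε⌋) with hF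
  have hinj : Set.InjOn F {γ : ℝ × ℝ | γ ∈ Λ ∧ ‖γ‖ ≤ R} := by
    intro γ hγ γ' hγ' h
    have h1 : ⌊γ.1 / ε⌋ = ⌊γ'.1 / ε⌋ := congrArg Prod.fst h
    have h2 : ⌊γ.2 / ε⌋ = ⌊γ'.2 / ε⌋ := congrArg Prod.snd h
    have h3 := Int.abs_sub_lt_one_of_floor_eq_floor h1
    have h4 := Int.abs_sub_lt_one_of_floor_eq_floor h2
    rw [← sub_div, abs_div, abs_of_pos hε, div_lt_one hε] at h3 h4
    have h5 : γ - γ' = 0 := by
      apply hd _ (Λ.sub_mem hγ.1 hγ'.1)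
      rw [Prod.norm_def, max_lt_iff]
      exact ⟨h3, h4⟩
    exact sub_eq_zero.1 h5
  apply Set.Finite.of_finite_image _ hinj
  apply Set.Finite.subset ((Set.finite_Icc (-⌈R / ε⌉ - 1) ⌈R / ε⌉).prod
    (Set.finite_Icc (-⌈R / ε⌉ - 1) ⌈R / ε⌉))
  rintro _ ⟨γ, ⟨-, hγ⟩, rfl⟩
  have key : ∀ x : ℝ, |x| ≤ R → ⌊x / ε⌋ ∈ Set.Icc (-⌈R / ε⌉ - 1) ⌈R / ε⌉ := by
    intro x hx
    have h1 : |x / ε| ≤ R / ε := by
      rw [abs_div, abs_of_pos hε]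
      exact div_le_div_of_nonneg_right hx hε.le
    rw [abs_le] at h1
    have h2 := Int.le_ceil (R / ε)
    constructor
    · rw [Int.le_floor]
      push_cast
      linarith
    · have h3 := Int.floor_le (x / ε)
      have h4 : ((⌊x / ε⌋ : ℤ) : ℝ) ≤ (⌈R / ε⌉ : ℤ) := by linarith
      exact_mod_cast h4
  rw [Prod.norm_def, max_le_iff] at hγ
  exact ⟨key _ hγ.1, key _ hγ.2⟩

theorem det2_sub_zsmul (g γ h : ℝ × ℝ) (m : ℤ) :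
    det2 g (γ - m • h) = det2 g γ - m * det2 g h := by
  have e1 : (γ - m • h).1 = γ.1 - m * h.1 := by rw [Prod.fst_sub, Prod.smul_fst, zsmul_eq_mul]
  have e2 : (γ - m • h).2 = γ.2 - m * h.2 := by rw [Prod.snd_sub, Prod.smul_snd, zsmul_eq_mul]
  unfold det2
  rw [e1, e2]
  ring

theorem det2_self (g : ℝ × ℝ) : det2 g g = 0 := by
  unfold det2
  ring

theorem basis : BasisStm := by
  classical
  rintro Λ ⟨ε, hε, hd⟩ hper hsmall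
  -- the shortest element
  obtain ⟨γ₀, hγ₀, hγ₀2, -⟩ := hsmall 1 one_pos
  have hγ₀0 : γ₀ ≠ 0 := by rintro rfl; exact hγ₀2 rfl
  set S₁ := (finite_part hε hd ‖γ₀‖).toFinset.filter (fun γ => γ ≠ 0) with hS₁
  obtain ⟨g₁, hg₁, hmin₁⟩ := S₁.exists_min_image (fun γ => ‖γ‖)
    ⟨γ₀, by simp [hS₁, hγ₀, hγ₀0]⟩
  simp only [hS₁, Finset.mem_filter, Set.Finite.mem_toFinset, Set.mem_ofPred_eq] at hg₁ hmin₁
  obtain ⟨⟨hg₁Λ, hg₁n⟩, hg₁0⟩ := hg₁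
  have hmin : ∀ γ ∈ Λ, γ ≠ 0 → ‖g₁‖ ≤ ‖γ‖ := by
    intro γ hγ hγ0
    by_cases h : ‖γ‖ ≤ ‖γ₀‖
    · exact hmin₁ γ ⟨⟨hγ, h⟩, hγ0⟩
    · push Not at h
      exact hg₁n.trans h.le
  have hg₁2 : g₁.2 ≠ 0 := by
    intro h
    apply hg₁0
    have h1 : ((g₁.1, 0) : ℝ × ℝ) = g₁ := Prod.ext rfl h.symm
    have h2 := hper g₁.1 (by rw [h1]; exact hg₁Λ)
    exact Prod.ext h2 h
  -- elements proportional to `g₁` are integer multiples of it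
  have hcol : ∀ γ ∈ Λ, det2 g₁ γ = 0 → ∃ m : ℤ, γ = m • g₁ := by
    intro γ hγ hdet
    set s : ℝ := γ.2 / g₁.2 with hs
    have hγs : γ = s • g₁ := by
      apply Prod.ext
      · simp only [Prod.smul_fst, smul_eq_mul, hs]
        unfold det2 at hdet
        field_simp
        linarith
      · simp only [Prod.smul_snd, smul_eq_mul, hs]
        field_simp
    refine ⟨⌊s⌋, ?_⟩
    by_contra hne
    have h1 : γ - ⌊s⌋ • g₁ ∈ Λ := Λ.sub_mem hγ (Λ.zsmul_mem hg₁Λ _)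
    have h2 := hmin _ h1 (sub_ne_zero.2 hne)
    have h3 : γ - ⌊s⌋ • g₁ = Int.fract s • g₁ := by
      rw [← Int.cast_smul_eq_zsmul ℝ]
      nth_rewrite 1 [hγs]
      rw [← sub_smul]
      rfl
    rw [h3, norm_smul, Real.norm_of_nonneg (Int.fract_nonneg s)] at h2
    have h4 := Int.fract_lt_one s
    have h5 : 0 < ‖g₁‖ := norm_pos_iff.2 hg₁0
    nlinarith
  -- an independent element
  obtain ⟨g₀, hg₀, hg₀d⟩ : ∃ g ∈ Λ, det2 g₁ g ≠ 0 := by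
    by_contra hcon
    push Not at hcon
    obtain ⟨γ, hγ, hγ2, hγs⟩ := hsmall |g₁.2| (abs_pos.2 hg₁2)
    obtain ⟨m, hm⟩ := hcol γ hγ (hcon γ hγ)
    have h1 : γ.2 = m * g₁.2 := by
      rw [hm, Prod.smul_snd, zsmul_eq_mul]
    have hm0 : m ≠ 0 := by
      rintro rfl
      apply hγ2
      rw [h1]; simp
    have h2 : (1 : ℝ) ≤ |(m : ℝ)| := by exact_mod_cast Int.one_le_abs hm0
    rw [h1, abs_mul] at hγs
    nlinarith [abs_pos.2 hg₁2]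
  set D : ℝ := |det2 g₁ g₀| with hD
  set R : ℝ := max ((|g₁.1| * |g₁.2| + D) / |g₁.2|) |g₁.2| with hR
  -- reduction modulo `g₁`
  have hred : ∀ γ ∈ Λ, |det2 g₁ γ| ≤ D → ∃ γ' ∈ Λ, det2 g₁ γ' = det2 g₁ γ ∧ ‖γ'‖ ≤ R := by
    intro γ hγ hγD
    set m : ℤ := ⌊γ.2 / g₁.2⌋ with hm
    refine ⟨γ - m • g₁, Λ.sub_mem hγ (Λ.zsmul_mem hg₁Λ _), ?_, ?_⟩
    · rw [det2_sub_zsmul, det2_self, mul_zero, sub_zero]
    · have hdet : det2 g₁ (γ - m • g₁) = det2 g₁ γ := by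
        rw [det2_sub_zsmul, det2_self, mul_zero, sub_zero]
      set γ' := γ - m • g₁ with hγ'
      have h2 : γ'.2 = Int.fract (γ.2 / g₁.2) * g₁.2 := by
        rw [hγ', Prod.snd_sub, Prod.smul_snd, zsmul_eq_mul, Int.fract, ← hm, sub_mul]
        field_simp
      have h3 : |γ'.2| ≤ |g₁.2| := by
        rw [h2, abs_mul, abs_of_nonneg (Int.fract_nonneg _)]
        have := Int.fract_lt_one (γ.2 / g₁.2)
        nlinarith [abs_nonneg g₁.2]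
      have h4 : |γ'.1| ≤ (|g₁.1| * |g₁.2| + D) / |g₁.2| := by
        rw [le_div_iff₀ (abs_pos.2 hg₁2), ← abs_mul]
        have h5 : γ'.1 * g₁.2 = g₁.1 * γ'.2 - det2 g₁ γ' := by unfold det2; ring
        rw [h5]
        calc |g₁.1 * γ'.2 - det2 g₁ γ'| ≤ |g₁.1 * γ'.2| + |det2 g₁ γ'| := abs_sub _ _
          _ ≤ |g₁.1| * |g₁.2| + D := by
              rw [abs_mul, hdet]
              exact add_le_add (mul_le_mul_of_nonneg_left h3 (abs_nonneg _)) hγD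
      rw [Prod.norm_def, max_le_iff]
      exact ⟨h4.trans (le_max_left _ _), h3.trans (le_max_right _ _)⟩
  set S₂ := (finite_part hε hd R).toFinset.filter (fun γ => det2 g₁ γ ≠ 0) with hS₂
  obtain ⟨g₀', hg₀', hg₀d', hg₀n'⟩ := hred g₀ hg₀ le_rfl
  obtain ⟨g₂, hg₂, hmin₂⟩ := S₂.exists_min_image (fun γ => |det2 g₁ γ|)
    ⟨g₀', by
      simp only [hS₂, Finset.mem_filter, Set.Finite.mem_toFinset, Set.mem_ofPred_eq]
      exact ⟨⟨hg₀', hg₀n'⟩, by rw [hg₀d']; exact hg₀d⟩⟩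
  simp only [hS₂, Finset.mem_filter, Set.Finite.mem_toFinset, Set.mem_ofPred_eq] at hg₂ hmin₂
  obtain ⟨⟨hg₂Λ, hg₂n⟩, hg₂d⟩ := hg₂
  have hg₂D : |det2 g₁ g₂| ≤ D := by
    have := hmin₂ g₀' ⟨⟨hg₀', hg₀n'⟩, by rw [hg₀d']; exact hg₀d⟩
    rwa [hg₀d'] at this
  have hmind : ∀ γ ∈ Λ, det2 g₁ γ ≠ 0 → |det2 g₁ g₂| ≤ |det2 g₁ γ| := by
    intro γ hγ hγd
    by_cases h : |det2 g₁ γ| ≤ D
    · obtain ⟨γ', h1, h2, h3⟩ := hred γ hγ h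
      rw [← h2]
      exact hmin₂ γ' ⟨⟨h1, h3⟩, by rw [h2]; exact hγd⟩
    · push Not at h
      exact hg₂D.trans h.le
  refine ⟨g₁, hg₁Λ, g₂, hg₂Λ, hg₂d, fun γ hγ => ?_⟩
  set t : ℝ := det2 g₁ γ / det2 g₁ g₂ with ht
  have h1 : γ - ⌊t⌋ • g₂ ∈ Λ := Λ.sub_mem hγ (Λ.zsmul_mem hg₂Λ _)
  have h2 : det2 g₁ (γ - ⌊t⌋ • g₂) = Int.fract t * det2 g₁ g₂ := by
    have h3 := det2_sub_zsmul g₁ γ g₂ ⌊t⌋
    rw [h3, Int.fract, sub_mul, ht, div_mul_cancel₀ _ hg₂d]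
  have h3 : det2 g₁ (γ - ⌊t⌋ • g₂) = 0 := by
    by_contra hne
    have h4 := hmind _ h1 hne
    rw [h2, abs_mul, abs_of_nonneg (Int.fract_nonneg t)] at h4
    have h5 := Int.fract_lt_one t
    have h6 := abs_pos.2 hg₂d
    nlinarith
  obtain ⟨m, hm⟩ := hcol _ h1 h3
  exact ⟨m, ⌊t⌋, by rw [← hm]; abel⟩

end Pool.Agent.N596.WF
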